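import Pool.Agent.Helper62.LH.StG

/-!
# Project LH (MP_087a81_gt): module CC (barriers give concavity)
-/

set_option autoImplicit false

open Set Filter Topology MeasureTheory
open scoped ContDiff ENNReal

noncomputable section

namespace Pool.Agent.Helper43.LH

open Helper62.LH

/-- the chord lemma -/
lemma chord_CC (φ : ℝ → ℝ) (a b K : ℝ) (hφ : ContinuousOn φ (Icc a b))
    (hb : ∀ τ₀ ∈ Ioo a b, ∃ α : ℝ, ∀ ε > 0, ∀ᶠ τ in 𝓝 τ₀,
      φ τ ≤ φ τ₀ + α * (τ - τ₀) + (K + ε) * (τ - τ₀) ^ 2)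
    (ε : ℝ) (hε : 0 < ε) (s t : ℝ) (hs : a ≤ s) (ht : t ≤ b) (hst : s < t) (p q : ℝ)
    (h1 : φ s - (K + 2 * ε) * s ^ 2 = p + q * s) (h2 : φ t - (K + 2 * ε) * t ^ 2 = p + q * t) :
    ∀ τ ∈ Icc s t, 0 ≤ φ τ - (K + 2 * ε) * τ ^ 2 - (p + q * τ) := by
  intro τ hτ
  by_contra hneg
  push Not at hneg
  have hcont : ContinuousOn (fun τ => φ τ - (K + 2 * ε) * τ ^ 2 - (p + q * τ)) (Icc s t) := by
    have h3 : ContinuousOn φ (Icc s t) := hφ.mono (Icc_subset_Icc hs ht)
    fun_prop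
  obtain ⟨τ₀, hτ₀, hmin⟩ := isCompact_Icc.exists_isMinOn ⟨τ, hτ⟩ hcont
  have hm0 : φ τ₀ - (K + 2 * ε) * τ₀ ^ 2 - (p + q * τ₀) < 0 := (hmin hτ).trans_lt hneg
  have hne1 : τ₀ ≠ s := by
    rintro rfl
    linarith
  have hne2 : τ₀ ≠ t := by
    rintro rfl
    linarith
  have hs0 : s < τ₀ := lt_of_le_of_ne hτ₀.1 (Ne.symm hne1)
  have ht0 : τ₀ < t := lt_of_le_of_ne hτ₀.2 hne2
  obtain ⟨α, hα⟩ := hb τ₀ ⟨hs.trans_lt hs0, ht0.trans_le ht⟩
  obtain ⟨δ, hδ, hδ2⟩ := Metric.eventually_nhds_iff.1 (hα ε hε)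
  set r : ℝ := min δ (min (τ₀ - s) (t - τ₀)) / 2 with hr
  have hr0 : 0 < r := by
    have : 0 < min δ (min (τ₀ - s) (t - τ₀)) :=
      lt_min hδ (lt_min (by linarith) (by linarith))
    rw [hr]
    linarith
  have hrδ : r < δ := by
    have : min δ (min (τ₀ - s) (t - τ₀)) ≤ δ := min_le_left _ _
    rw [hr] at hr0 ⊢
    linarith
  have hrs : r < τ₀ - s := by
    have : min δ (min (τ₀ - s) (t - τ₀)) ≤ τ₀ - s := (min_le_right _ _).trans (min_le_left _ _)
    rw [hr] at hr0 ⊢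
    linarith
  have hrt : r < t - τ₀ := by
    have : min δ (min (τ₀ - s) (t - τ₀)) ≤ t - τ₀ := (min_le_right _ _).trans (min_le_right _ _)
    rw [hr] at hr0 ⊢
    linarith
  have key : ∀ e : ℝ, (e = 1 ∨ e = -1) → (α - 2 * (K + 2 * ε) * τ₀ - q) * e ≤ 0 → False := by
    intro e he hle
    have he2 : e ^ 2 = 1 := by rcases he with rfl | rfl <;> norm_num
    have hmem : τ₀ + r * e ∈ Icc s t := by
      rcases he with rfl | rfl <;> constructor <;> linarith
    have hd : dist (τ₀ + r * e) τ₀ < δ := by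
      rw [Real.dist_eq]
      have : τ₀ + r * e - τ₀ = r * e := by ring
      rw [this, abs_mul, abs_of_pos hr0]
      rcases he with rfl | rfl
      · simpa using hrδ
      · simpa using hrδ
    have h3 := hδ2 hd
    have h4 : φ τ₀ - (K + 2 * ε) * τ₀ ^ 2 - (p + q * τ₀)
        ≤ φ (τ₀ + r * e) - (K + 2 * ε) * (τ₀ + r * e) ^ 2 - (p + q * (τ₀ + r * e)) := hmin hmem
    have h5 : 0 < ε * r ^ 2 := by positivity
    have h6 : r * ((α - 2 * (K + 2 * ε) * τ₀ - q) * e) ≤ 0 :=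
      mul_nonpos_of_nonneg_of_nonpos hr0.le hle
    nlinarith
  rcases le_total (α - 2 * (K + 2 * ε) * τ₀ - q) 0 with h | h
  · exact key 1 (Or.inl rfl) (by linarith)
  · exact key (-1) (Or.inr rfl) (by linarith)

theorem hCc : StCc := by
  intro φ a b K hab hφ hb
  apply LinearOrder.concaveOn_of_lt (convex_Icc a b)
  intro x hx y hy hxy u v hu hv huv
  simp only [smul_eq_mul]
  have hmain : ∀ ε > 0, u * (φ x - (K + 2 * ε) * x ^ 2) + v * (φ y - (K + 2 * ε) * y ^ 2)
      ≤ φ (u * x + v * y) - (K + 2 * ε) * (u * x + v * y) ^ 2 := by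
    intro ε hε
    have hyx : y - x ≠ 0 := by linarith
    set A : ℝ := φ x - (K + 2 * ε) * x ^ 2 with hA
    set B : ℝ := φ y - (K + 2 * ε) * y ^ 2 with hB
    have h := chord_CC φ a b K hφ hb ε hε x y hx.1 hy.2 hxy (A - (B - A) / (y - x) * x)
      ((B - A) / (y - x)) (by ring) (by rw [← hB]; field_simp; ring) (u * x + v * y)
      (by
        have hu1 : u = 1 - v := by linarith
        subst hu1
        constructor
        · nlinarith
        · nlinarith)
    have h2 : (A - (B - A) / (y - x) * x) + (B - A) / (y - x) * (u * x + v * y)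
        = u * A + v * B := by
      have hu1 : u = 1 - v := by linarith
      subst hu1
      field_simp
      ring
    rw [h2] at h
    linarith
  by_contra hcon
  push Not at hcon
  set C : ℝ := u * x ^ 2 + v * y ^ 2 - (u * x + v * y) ^ 2 with hC
  have hC0 : 0 ≤ C := by
    have hu1 : u = 1 - v := by linarith
    have : C = u * v * (x - y) ^ 2 := by
      rw [hC, hu1]; ring
    rw [this]
    positivity
  set D : ℝ := u * (φ x - K * x ^ 2) + v * (φ y - K * y ^ 2)
    - (φ (u * x + v * y) - K * (u * x + v * y) ^ 2) with hD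
  have hD0 : 0 < D := by rw [hD]; linarith
  have h := hmain (D / (4 * (C + 1))) (by positivity)
  have h3 : D ≤ 2 * (D / (4 * (C + 1))) * C := by
    rw [hD, hC] at *
    nlinarith
  have h4 : 2 * (D / (4 * (C + 1))) * C = D * (C / (2 * (C + 1))) := by
    field_simp
    ring
  rw [h4] at h3
  have h5 : C / (2 * (C + 1)) < 1 := by
    rw [div_lt_one (by positivity)]
    linarith
  nlinarith

end Pool.Agent.Helper43.LH
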