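import Pool.Agent.Helper62.LH.StG

/-!
# Project LH (MP_087a81_gt): module CMP
-/

set_option autoImplicit false

open Set Filter Topology MeasureTheory
open scoped ContDiff ENNReal

noncomputable section

namespace Pool.Agent.Helper43.LH

open Helper62.LH

theorem hCmp : StCmp := by
  intro n g hg K hK
  have hcont : Continuous (fun q : E n × E n => g q.1 q.2 q.2) := by
    have h1 : Continuous g := hg.smooth.continuous
    fun_prop
  set S : Set (E n × E n) := K ×ˢ Metric.sphere (0 : E n) 1 with hS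
  have hSc : IsCompact S := hK.prod (isCompact_sphere 0 1)
  -- homogeneity
  have hhom : ∀ x ∈ K, ∀ v : E n, v ≠ 0 → ∃ u : E n, (x, u) ∈ S ∧
      g x v v = ‖v‖ ^ 2 * g x u u := by
    intro x hx v hv
    have hn : ‖v‖ ≠ 0 := norm_ne_zero_iff.2 hv
    refine ⟨‖v‖⁻¹ • v, ⟨hx, ?_⟩, ?_⟩
    · rw [mem_sphere_zero_iff_norm, norm_smul, norm_inv, norm_norm, inv_mul_cancel₀ hn]
    · simp only [map_smul, _root_.smul_apply, smul_eq_mul]
      field_simp
  by_cases hne : S.Nonempty
  · obtain ⟨q₀, hq₀, hmin⟩ := hSc.exists_isMinOn hne hcont.continuousOn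
    obtain ⟨q₁, hq₁, hmax⟩ := hSc.exists_isMaxOn hne hcont.continuousOn
    have hpos : 0 < g q₀.1 q₀.2 q₀.2 := by
      apply hg.pos
      intro h0
      have := hq₀.2
      rw [h0, mem_sphere_zero_iff_norm, norm_zero] at this
      exact zero_ne_one this
    have hle : g q₀.1 q₀.2 q₀.2 ≤ g q₁.1 q₁.2 q₁.2 := hmax hq₀
    refine ⟨g q₀.1 q₀.2 q₀.2, g q₁.1 q₁.2 q₁.2, hpos, hpos.trans_le hle, ?_⟩
    intro x hx v
    by_cases hv : v = 0
    · subst hv
      simp
    · obtain ⟨u, hu, he⟩ := hhom x hx v hv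
      rw [he]
      have h1 : g q₀.1 q₀.2 q₀.2 ≤ g x u u := hmin hu
      have h2 : g x u u ≤ g q₁.1 q₁.2 q₁.2 := hmax hu
      have h3 : 0 ≤ ‖v‖ ^ 2 := by positivity
      constructor
      · rw [mul_comm]
        exact mul_le_mul_of_nonneg_left h1 h3
      · rw [mul_comm]
        exact mul_le_mul_of_nonneg_right h2 h3
  · refine ⟨1, 1, one_pos, one_pos, ?_⟩
    intro x hx v
    by_cases hv : v = 0
    · subst hv
      simp
    · obtain ⟨u, hu, _⟩ := hhom x hx v hv
      exact absurd ⟨_, hu⟩ hne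

end Pool.Agent.Helper43.LH
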