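import Pool.Agent.Helper62.LH.StG

/-!
# Project LH (MP_087a81_gt): module CUR (antisymmetry of the curvature)
-/

set_option autoImplicit false

open Set Filter Topology MeasureTheory
open scoped ContDiff ENNReal

noncomputable section

namespace Pool.Agent.Helper43.LH

open Helper62.LH

section gen

variable {V : Type} [NormedAddCommGroup V] [NormedSpace ℝ V]

lemma line_CUR (x a : V) : HasDerivAt (fun t : ℝ => x + t • a) a 0 := by
  have := ((hasDerivAt_id (0 : ℝ)).smul_const a).const_add x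
  simpa using this

lemma comp_CUR {W : Type} [NormedAddCommGroup W] [NormedSpace ℝ W] (f : V → W) (x a : V)
    (hf : DifferentiableAt ℝ f x) :
    HasDerivAt (fun t : ℝ => f (x + t • a)) (fderiv ℝ f x a) 0 := by
  have hx0 : x + (0 : ℝ) • a = x := by simp
  have h1 : HasFDerivAt f (fderiv ℝ f x) (x + (0 : ℝ) • a) := by
    rw [hx0]
    exact hf.hasFDerivAt
  exact h1.comp_hasDerivAt (0 : ℝ) (line_CUR x a)

lemma key_CUR (g : V → V →L[ℝ] V →L[ℝ] ℝ) (Γ : V → V →L[ℝ] V →L[ℝ] V)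
    (hg : ContDiff ℝ ∞ g) (hΓ : ContDiff ℝ ∞ Γ)
    (hcomp : ∀ x w u v, fderiv ℝ g x w u v = g x (Γ x w u) v + g x u (Γ x w v))
    (x a b c d : V) : fderiv ℝ (fderiv ℝ (fun y => g y c d)) x a b =
      g x (Γ x a (Γ x b c)) d + g x (Γ x b c) (Γ x a d) + g x (fderiv ℝ Γ x a b c) d
      + (g x (Γ x a c) (Γ x b d) + g x c (Γ x a (Γ x b d)) + g x c (fderiv ℝ Γ x a b d)) := by
  have hx0 : x + (0 : ℝ) • a = x := by simp
  have hGs : ContDiff ℝ ∞ (fun y => g y c d) := (hg.clm_apply contDiff_const).clm_apply contDiff_const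
  have hfd : ∀ y w, fderiv ℝ (fun y => g y c d) y w = fderiv ℝ g y w c d := by
    intro y w
    have h1 : HasFDerivAt g (fderiv ℝ g y) y := (hg.differentiable (by simp) y).hasFDerivAt
    have h2 := (h1.clm_apply (hasFDerivAt_const c y)).clm_apply (hasFDerivAt_const d y)
    rw [h2.fderiv]
    simp
  have hg2 : ContDiff ℝ 1 (fderiv ℝ (fun y => g y c d)) := hGs.fderiv_right (m := 1) (by norm_cast)
  have hG : HasDerivAt (fun t : ℝ => g (x + t • a)) (fderiv ℝ g x a) 0 :=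
    comp_CUR g x a (hg.differentiable (by simp) x)
  have hGa : HasDerivAt (fun t : ℝ => Γ (x + t • a)) (fderiv ℝ Γ x a) 0 :=
    comp_CUR Γ x a (hΓ.differentiable (by simp) x)
  have hF : HasDerivAt (fun t : ℝ => fderiv ℝ (fun y => g y c d) (x + t • a))
      (fderiv ℝ (fderiv ℝ (fun y => g y c d)) x a) 0 :=
    comp_CUR (fderiv ℝ (fun y => g y c d)) x a (hg2.differentiable (by simp) x)
  have happ : ∀ u v : V, HasDerivAt (fun t : ℝ => Γ (x + t • a) u v)
      (fderiv ℝ Γ x a u v) 0 := by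
    intro u v
    have h1 := (hGa.clm_apply (hasDerivAt_const (0 : ℝ) u)).clm_apply
      (hasDerivAt_const (0 : ℝ) v)
    simpa using h1
  have hL : HasDerivAt (fun t : ℝ => fderiv ℝ (fun y => g y c d) (x + t • a) b)
      (fderiv ℝ (fderiv ℝ (fun y => g y c d)) x a b) 0 := by
    have h1 := hF.clm_apply (hasDerivAt_const (0 : ℝ) b)
    simpa using h1
  have hR1 : HasDerivAt (fun t : ℝ => g (x + t • a) (Γ (x + t • a) b c) d)
      (fderiv ℝ g x a (Γ x b c) d + g x (fderiv ℝ Γ x a b c) d) 0 := by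
    have h1 := (hG.clm_apply (happ b c)).clm_apply (hasDerivAt_const (0 : ℝ) d)
    simpa [hx0] using h1
  have hR2 : HasDerivAt (fun t : ℝ => g (x + t • a) c (Γ (x + t • a) b d))
      (fderiv ℝ g x a c (Γ x b d) + g x c (fderiv ℝ Γ x a b d)) 0 := by
    have h1 := (hG.clm_apply (hasDerivAt_const (0 : ℝ) c)).clm_apply (happ b d)
    simpa [hx0] using h1
  have hR := hR1.add hR2
  have hfun : (fun t : ℝ => fderiv ℝ (fun y => g y c d) (x + t • a) b) =
      (fun t : ℝ => g (x + t • a) (Γ (x + t • a) b c) d)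
        + (fun t : ℝ => g (x + t • a) c (Γ (x + t • a) b d)) := by
    ext t
    rw [hfd]
    exact hcomp _ _ _ _
  rw [hfun] at hL
  have h2 := hL.unique hR
  rw [h2, hcomp, hcomp]

lemma gen_CUR (g : V → V →L[ℝ] V →L[ℝ] ℝ) (Γ : V → V →L[ℝ] V →L[ℝ] V)
    (hg : ContDiff ℝ ∞ g) (hΓ : ContDiff ℝ ∞ Γ) (hsym : ∀ x u v, g x u v = g x v u)
    (hcomp : ∀ x w u v, fderiv ℝ g x w u v = g x (Γ x w u) v + g x u (Γ x w v))
    (x a b c d : V) :
    g x (fderiv ℝ Γ x a b c - fderiv ℝ Γ x b a c + Γ x a (Γ x b c) - Γ x b (Γ x a c)) d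
      = - g x (fderiv ℝ Γ x a b d - fderiv ℝ Γ x b a d + Γ x a (Γ x b d) - Γ x b (Γ x a d)) c := by
  have hGs : ContDiff ℝ ∞ (fun y => g y c d) := (hg.clm_apply contDiff_const).clm_apply contDiff_const
  have e3 : fderiv ℝ (fderiv ℝ (fun y => g y c d)) x a b
      = fderiv ℝ (fderiv ℝ (fun y => g y c d)) x b a := by
    have h1 : ContDiffAt ℝ 2 (fun y => g y c d) x := (hGs.contDiffAt).of_le (by norm_cast)
    exact (h1.isSymmSndFDerivAt (by simp)) a b
  have e1 := key_CUR g Γ hg hΓ hcomp x a b c d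
  have e2 := key_CUR g Γ hg hΓ hcomp x b a c d
  rw [e1, e2] at e3
  have s1 := hsym x (Γ x b c) (Γ x a d)
  have s2 := hsym x (Γ x a c) (Γ x b d)
  simp only [map_add, map_sub, ContinuousLinearMap.add_apply, ContinuousLinearMap.sub_apply]
  rw [hsym x (fderiv ℝ Γ x a b d) c, hsym x (fderiv ℝ Γ x b a d) c,
    hsym x (Γ x a (Γ x b d)) c, hsym x (Γ x b (Γ x a d)) c]
  linarith

end gen

theorem hCur (hChr : StChr) : StCur := by
  intro n g Γ hg hΓ x a b c d
  obtain ⟨hΓs, _, hcomp⟩ := hChr n g Γ hg hΓ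
  exact gen_CUR g Γ hg.smooth hΓs hg.symm hcomp x a b c d

end Pool.Agent.Helper43.LH
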