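import Pool.Agent.Helper62.LH.StS

/-!
# Project LH (MP_087a81_gt): module DTZ (identity for `n+1` vectors of `ℝⁿ`)
-/

set_option autoImplicit false
set_option maxSynthPendingDepth 3

open Set Filter Topology MeasureTheory
open scoped ContDiff ENNReal

noncomputable section

namespace Pool.Agent.Helper43.LH

open Helper62.LH

theorem hDtz : StDtz := by
  intro n u lam
  have hlam : ∀ v : E n, lam v = ∑ m, v m * lam (ee m) := by
    intro v
    have h1 : v = ∑ m, v m • (ee m : E n) := by
      ext i
      simp [ee, Pi.single_apply]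
    conv_lhs => rw [h1]
    simp
  set M : Matrix (Fin (n + 1)) (Fin (n + 1)) ℝ :=
    Matrix.of fun b => (Fin.cons (lam (u b)) (fun m => u b m) : Fin (n + 1) → ℝ) with hM
  have hdet : M.det = 0 := by
    apply Matrix.exists_mulVec_eq_zero_iff.mp
    refine ⟨Fin.cons 1 (fun m => - lam (ee m)), ?_, ?_⟩
    · intro h
      have := congrFun h 0
      simp at this
    · ext b
      simp [Matrix.mulVec, dotProduct, Fin.sum_univ_succ, hM]
      rw [hlam (u b)]
      ring
  rw [Matrix.det_succ_column_zero] at hdet
  rw [← hdet]
  refine Finset.sum_congr rfl (fun b _ => ?_)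
  rw [← mul_assoc]
  congr 1

end Pool.Agent.Helper43.LH
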