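import Pool.Agent.Helper62.LH.StA

/-!
# Project LH (MP_087a81_gt): module HL (linear combinations of harmonic `2`-forms)
-/

set_option autoImplicit false
set_option maxSynthPendingDepth 3

open Set Filter Topology MeasureTheory
open scoped ContDiff ENNReal

noncomputable section

namespace Pool.Agent.Helper43.LH

open Helper62.LH

theorem hHl (hShp : StShp) (hDlv : StDlv) (hUt : StUt) (hInb : StInb) : StHl := by
  intro n g Γ hg hΓ m c P hP
  obtain ⟨_, _, hgi, _, _, _⟩ := hShp n g Γ hg hΓ
  obtain ⟨hvol, hvpos, _⟩ := hDlv n g Γ hg hΓ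
  have hsm : ContDiff ℝ ∞ (fun x => ∑ i, c i • P i x) :=
    ContDiff.sum (fun i _ => ((hP i).smooth).const_smul (c i))
  have hap : ∀ x u v, (∑ i, c i • P i x) u v = ∑ i, c i * P i x u v := by
    intro x u v
    simp
  have hd : ∀ x, fderiv ℝ (fun x => ∑ i, c i • P i x) x = ∑ i, c i • fderiv ℝ (P i) x := by
    intro x
    have h1 : ∀ i, DifferentiableAt ℝ (P i) x :=
      fun i => (hP i).smooth.differentiable (by simp) x
    have h2 : HasFDerivAt (fun x => ∑ i, c i • P i x) (∑ i, c i • fderiv ℝ (P i) x) x :=
      HasFDerivAt.fun_sum (fun i _ => (h1 i).hasFDerivAt.const_smul (c i))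
    exact h2.fderiv
  have hup : ∀ k i j, ContDiff ℝ ∞ (fun y => vol g y * up g (P k) y i j) := by
    intro k i j
    refine hvol.mul ?_
    simp only [up]
    refine ContDiff.sum (fun a _ => ContDiff.sum (fun b _ => ?_))
    refine ((hgi i a).mul (hgi j b)).mul ?_
    exact ((hP k).smooth.clm_apply contDiff_const).clm_apply contDiff_const
  refine ⟨hsm, ?_, ?_, ?_, ?_⟩
  · intro x u v
    rw [hap, hap, ← Finset.sum_neg_distrib]
    refine Finset.sum_congr rfl (fun i _ => ?_)
    rw [(hP i).anti x u v]
    ring
  · intro x u v w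
    have h1 : ∀ u v w, fderiv ℝ (fun x => ∑ i, c i • P i x) x u v w =
        ∑ i, c i * fderiv ℝ (P i) x u v w := by
      intro u v w
      rw [hd]
      simp
    rw [h1, h1, h1, ← Finset.sum_add_distrib, ← Finset.sum_add_distrib]
    refine Finset.sum_eq_zero (fun i _ => ?_)
    have := (hP i).closed x u v w
    linear_combination c i * this
  · intro x i
    have h1 : ∀ j, (fun y => vol g y * up g (fun x => ∑ i, c i • P i x) y i j) =
        fun y => ∑ k, c k * (vol g y * up g (P k) y i j) := by
      intro j
      ext y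
      simp only [up, hap, Finset.mul_sum]
      rw [Finset.sum_congr rfl (fun a _ => Finset.sum_comm)]
      rw [Finset.sum_comm]
      refine Finset.sum_congr rfl (fun k _ => Finset.sum_congr rfl (fun a _ =>
        Finset.sum_congr rfl (fun b _ => ?_)))
      ring
    have h2 : ∀ j, fderiv ℝ (fun y => vol g y * up g (fun x => ∑ i, c i • P i x) y i j) x (ee j) =
        ∑ k, c k * fderiv ℝ (fun y => vol g y * up g (P k) y i j) x (ee j) := by
      intro j
      rw [h1]
      have h3 : ∀ k, DifferentiableAt ℝ (fun y => vol g y * up g (P k) y i j) x :=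
        fun k => (hup k i j).differentiable (by simp) x
      have h4 : HasFDerivAt (fun y => ∑ k, c k * (vol g y * up g (P k) y i j))
          (∑ k, c k • fderiv ℝ (fun y => vol g y * up g (P k) y i j) x) x :=
        HasFDerivAt.fun_sum (fun k _ => (h3 k).hasFDerivAt.const_mul (c k))
      rw [h4.fderiv]
      simp
    rw [Finset.sum_congr rfl (fun j _ => h2 j), Finset.sum_comm]
    refine Finset.sum_eq_zero (fun k _ => ?_)
    rw [← Finset.mul_sum, (hP k).cocl x i, mul_zero]
  · have hcont : Continuous
        (fun x => nB g x (fun u v => (∑ i, c i • P i x) u v) * vol g x) := by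
      have h1 := (hUt n g hg).2.1 (fun x => ∑ i, c i • P i x) (fun x => ∑ i, c i • P i x)
        hsm.continuous hsm.continuous
      exact h1.mul hvol.continuous
    have hint : Integrable (fun x => (∑ i, c i ^ 2) *
        ∑ i, nB g x (fun u v => P i x u v) * vol g x) :=
      (integrable_finset_sum _ (fun i _ => (hP i).int)).const_mul _
    refine hint.mono' hcont.aestronglyMeasurable (Eventually.of_forall (fun x => ?_))
    obtain ⟨hn0, _, hn2, _, _, hn5, _, _⟩ := hInb n g hg x
    have hbd : nB g x (fun u v => (∑ i, c i • P i x) u v) ≤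
        (∑ i, c i ^ 2) * ∑ i, nB g x (fun u v => P i x u v) := by
      simp only [hap]
      have hs0 : 0 ≤ ∑ i, c i ^ 2 := Finset.sum_nonneg (fun i _ => sq_nonneg _)
      rcases hs0.eq_or_lt with hs | hs
      · have h1 : ∀ i, c i = 0 := by
          intro i
          have h2 := (Finset.sum_eq_zero_iff_of_nonneg (fun i _ => sq_nonneg (c i))).1 hs.symm i
            (Finset.mem_univ i)
          exact pow_eq_zero_iff (two_ne_zero) |>.1 h2
        have h3 := hn2 (0 : Bl n) 0
        simp [h1, nB, trg]
      · have h4 : ∑ i, (c i / √ (∑ i, c i ^ 2)) ^ 2 = 1 := by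
          simp only [div_pow, Real.sq_sqrt hs0]
          rw [← Finset.sum_div]
          exact div_self hs.ne'
        have h5 := hn5 m (fun i => c i / √ (∑ i, c i ^ 2)) (fun i => P i x) h4
        have h6 := hn2 (∑ i, (c i / √ (∑ i, c i ^ 2)) • P i x) (√ (∑ i, c i ^ 2))
        have h7 : ∀ u v, (∑ i, (c i / √ (∑ i, c i ^ 2)) • P i x) u v =
            ∑ i, (c i / √ (∑ i, c i ^ 2)) * P i x u v := by
          intro u v
          simp
        have h8 : ∀ u v, √ (∑ i, c i ^ 2) * (∑ i, (c i / √ (∑ i, c i ^ 2)) * P i x u v) =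
            ∑ i, c i * P i x u v := by
          intro u v
          rw [Finset.mul_sum]
          refine Finset.sum_congr rfl (fun i _ => ?_)
          have : √ (∑ i, c i ^ 2) ≠ 0 := (Real.sqrt_pos.2 hs).ne'
          field_simp
        simp only [h7, h8] at h6
        rw [h6, Real.sq_sqrt hs0]
        exact mul_le_mul_of_nonneg_left h5 hs0
    have h0 : 0 ≤ nB g x (fun u v => (∑ i, c i • P i x) u v) := hn0 _
    rw [Real.norm_of_nonneg (mul_nonneg h0 (hvpos x).le), ← Finset.sum_mul, ← mul_assoc]
    exact mul_le_mul_of_nonneg_right hbd (hvpos x).le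

end Pool.Agent.Helper43.LH
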