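import Pool.Agent.Helper62.LH.StA

/-!
# Project LH (MP_087a81_gt): module MO (`n+1` harmonic `1`-forms are linearly dependent)
-/

set_option autoImplicit false
set_option maxSynthPendingDepth 3

open Set Filter Topology MeasureTheory
open scoped ContDiff ENNReal

noncomputable section

namespace Pool.Agent.Helper43.LH

open Helper62.LH

lemma finrank_MO (n : ℕ) : Module.finrank ℝ (Dl n) = n := by
  have h1 : Module.finrank ℝ (E n →ₗ[ℝ] ℝ) = Module.finrank ℝ (E n →L[ℝ] ℝ) :=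
    (LinearMap.toContinuousLinearMap : (E n →ₗ[ℝ] ℝ) ≃ₗ[ℝ] (E n →L[ℝ] ℝ)).finrank_eq
  have h2 : Module.finrank ℝ (E n →ₗ[ℝ] ℝ) = Module.finrank ℝ (E n) :=
    Subspace.dual_finrank_eq
  change Module.finrank ℝ (E n →L[ℝ] ℝ) = n
  rw [← h1, h2, finrank_euclideanSpace_fin]

lemma dep_MO (n : ℕ) (a : Fin (n + 1) → Dl n) :
    ∃ c : Fin (n + 1) → ℝ, ∑ i, c i ^ 2 = 1 ∧ ∑ i, c i • a i = 0 := by
  have h1 : ¬ LinearIndependent ℝ a := by
    intro h
    have := h.fintype_card_le_finrank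
    rw [finrank_MO] at this
    simp at this
  rw [Fintype.not_linearIndependent_iff] at h1
  obtain ⟨c, hc, i₀, hi₀⟩ := h1
  have hs : 0 < ∑ i, c i ^ 2 :=
    Finset.sum_pos' (fun i _ => sq_nonneg _) ⟨i₀, Finset.mem_univ _, by positivity⟩
  refine ⟨fun i => (√ (∑ i, c i ^ 2))⁻¹ * c i, ?_, ?_⟩
  · have h2 : ∀ i, ((√ (∑ i, c i ^ 2))⁻¹ * c i) ^ 2 = (∑ i, c i ^ 2)⁻¹ * c i ^ 2 := by
      intro i
      rw [mul_pow, inv_pow, Real.sq_sqrt hs.le]
    rw [Finset.sum_congr rfl (fun i _ => h2 i), ← Finset.mul_sum]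
    exact inv_mul_cancel₀ hs.ne'
  · have h2 : ∀ i, ((√ (∑ i, c i ^ 2))⁻¹ * c i) • a i = (√ (∑ i, c i ^ 2))⁻¹ • (c i • a i) := by
      intro i
      rw [smul_smul]
    rw [Finset.sum_congr rfl (fun i _ => h2 i), ← Finset.smul_sum, hc, smul_zero]

lemma det_MO {n : ℕ} (g : E n → Bl n) (hg : IsMet g) (x : E n) : (gm g x).det ≠ 0 := by
  intro h
  obtain ⟨v, hv, hv0⟩ := Matrix.exists_mulVec_eq_zero_iff.mpr h
  have h1 : g x (∑ j, v j • ee j) (∑ j, v j • ee j) = 0 := by
    have h2 : g x (∑ j, v j • ee j) (∑ j, v j • ee j) =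
        ∑ i, v i * ∑ j, g x (ee i) (ee j) * v j := by
      simp only [map_sum, map_smul, _root_.sum_apply, _root_.smul_apply, smul_eq_mul]
      refine Finset.sum_congr rfl (fun i _ => ?_)
      congr 1
      refine Finset.sum_congr rfl (fun j _ => ?_)
      rw [hg.symm x (ee j) (ee i)]
      ring
    rw [h2]
    have h3 : ∀ i, ∑ j, g x (ee i) (ee j) * v j = 0 := by
      intro i
      have := congrFun hv0 i
      simpa [Matrix.mulVec, dotProduct, gm] using this
    simp [h3]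
  have h4 : (∑ j, v j • (ee j : E n)) ≠ 0 := by
    intro h5
    apply hv
    ext i
    have h6 : (∑ j, v j • (ee j : E n)) i = (0 : E n) i := by rw [h5]
    simpa [ee, Pi.single_apply] using h6
  exact absurd h1 (hg.pos x _ h4).ne'

lemma diffdet_MO {n : ℕ} {V : Type} [NormedAddCommGroup V] [NormedSpace ℝ V]
    (M : V → Matrix (Fin n) (Fin n) ℝ)
    (hM : ∀ i j, ContDiff ℝ 1 (fun x => M x i j)) : ContDiff ℝ 1 (fun x => (M x).det) := by
  simp only [Matrix.det_apply]
  refine ContDiff.sum (fun σ _ => ?_)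
  have h1 : ContDiff ℝ 1 (fun x => ∏ i, M x (σ i) i) := contDiff_prod (fun i _ => hM (σ i) i)
  rcases Int.units_eq_one_or (Equiv.Perm.sign σ) with h | h
  · simpa [h] using h1
  · simpa [h] using h1.neg

lemma diffgi_MO {n : ℕ} (g : E n → Bl n) (hg : IsMet g) (i j : Fin n) :
    Differentiable ℝ (fun x => gi g x i j) := by
  have h1 : ∀ i j, ContDiff ℝ 1 (fun x => gm g x i j) := by
    intro i j
    have h3 : ContDiff ℝ 1 g := hg.smooth.of_le (by norm_cast)
    have h2 : ContDiff ℝ 1 (fun x => g x (ee i) (ee j)) :=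
      (h3.clm_apply contDiff_const).clm_apply contDiff_const
    simpa [gm] using h2
  have h2 : (fun x => gi g x i j) = fun x => ((gm g x).det)⁻¹ * (gm g x).adjugate i j := by
    ext x
    rw [gi, Matrix.inv_def, Matrix.smul_apply, Ring.inverse_eq_inv', smul_eq_mul]
  rw [h2]
  refine Differentiable.mul ?_ ?_
  · exact ((diffdet_MO (fun x => gm g x) h1).differentiable (by simp)).inv (det_MO g hg)
  · simp only [Matrix.adjugate_apply]
    refine ContDiff.differentiable (diffdet_MO _ (fun k l => ?_)) (by simp : (1 : WithTop ℕ∞) ≠ 0)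
    by_cases hk : k = j
    · subst hk
      simpa using contDiff_const
    · simp only [Matrix.updateRow_apply, hk, if_false]
      exact h1 k l

theorem hMo (hIna : StIna) (hNa : StNa) (hBus : StBus) (hCut : StCut) (hOne : StOne) : StMo := by
  intro n g Γ hn hg hΓ hC hS θ hθ
  obtain ⟨p, b, κ, r0, hB⟩ := hBus n g Γ hn hg hΓ hC hS
  have hcut : Cut g := (hCut n g Γ hg hΓ p b κ r0 hB).1
  have hpar : ∀ i x u v, cf Γ (θ i) x u v = 0 :=
    fun i => hOne n g Γ hg hΓ hS hcut (θ i) (hθ i)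
  obtain ⟨c, hc1, hc0⟩ := dep_MO n (fun i => θ i 0)
  refine ⟨c, hc1, ?_⟩
  set ζ : E n → Dl n := fun x => ∑ i, c i • θ i x with hζ
  have hζs : ContDiff ℝ 1 ζ := by
    rw [hζ]
    refine ContDiff.sum (fun i _ => ?_)
    exact ((hθ i).smooth.of_le (by norm_cast)).const_smul (c i)
  have hd : ∀ x, fderiv ℝ ζ x = ∑ i, c i • fderiv ℝ (θ i) x := by
    intro x
    have h1 : ∀ i, DifferentiableAt ℝ (θ i) x :=
      fun i => (hθ i).smooth.differentiable (by simp) x
    have h2 : HasFDerivAt ζ (∑ i, c i • fderiv ℝ (θ i) x) x := by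
      rw [hζ]
      exact HasFDerivAt.fun_sum (fun i _ => (h1 i).hasFDerivAt.const_smul (c i))
    exact h2.fderiv
  have hcB : ∀ x w, cB Γ ζ x w = 0 := by
    intro x w
    ext v
    have h1 : cB Γ ζ x w v = ∑ i, c i * cf Γ (θ i) x w v := by
      have h2 : cB Γ ζ x w v = fderiv ℝ ζ x w v - ζ x (Γ x w v) := rfl
      rw [h2, hd]
      simp only [cf, hζ]
      simp [mul_sub, Finset.sum_sub_distrib]
    rw [h1]
    simp [hpar]
  have hdiff : Differentiable ℝ (fun y => ip g y (ζ y) (ζ y)) := by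
    have h1 : Differentiable ℝ ζ := hζs.differentiable (by simp)
    simp only [ip, trg]
    refine Differentiable.fun_sum (fun i _ => Differentiable.fun_sum (fun j _ => ?_))
    refine (diffgi_MO g hg i j).mul ?_
    exact (h1.clm_apply (differentiable_const _)).mul (h1.clm_apply (differentiable_const _))
  have hzero : ∀ x, fderiv ℝ (fun y => ip g y (ζ y) (ζ y)) x = 0 := by
    intro x
    ext w
    rw [hNa n g Γ hg hΓ ζ ζ hζs hζs x w, hcB]
    simp [ip, trg]
  have hconst : ∀ x, ip g x (ζ x) (ζ x) = ip g 0 (ζ 0) (ζ 0) := by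
    intro x
    exact is_const_of_fderiv_eq_zero hdiff hzero x 0
  intro x
  have h0 : ζ 0 = 0 := hc0
  have h1 : ip g x (ζ x) (ζ x) = 0 := by
    rw [hconst x, h0]
    simp [ip, trg]
  exact (hIna n g hg x).2.2.1 (ζ x) h1

end Pool.Agent.Helper43.LH
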