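import Pool.Agent.Helper62.LH.StG

/-!
# Project LH (MP_087a81_gt): module NC
-/

set_option autoImplicit false

open Set Filter Topology MeasureTheory
open scoped ContDiff ENNReal

noncomputable section

namespace Pool.Agent.Helper43.LH

open Helper62.LH

theorem hNc (hMet : StMet) (hAlx : StAlx) : StNc := by
  intro n g Γ hg hΓ hc hs x y z y' z' t ht hy' hz'
  obtain ⟨_, _, hnn, _, hsym, _⟩ := hMet n g hg
  have hA := (hAlx n g Γ hg hΓ hc hs).2
  have h1 := hA x y y' z t ht hy'
  have h2 := hA x z z' y' t ht hz'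
  obtain ⟨e1, _⟩ := hy'
  rw [hsym y' x, e1, hsym y' z] at h2
  rw [hsym z x, hsym z y] at h1
  have h3 : (t * dg g y z) ^ 2 ≤ dg g y' z' ^ 2 := by
    have h4 := mul_le_mul_of_nonneg_left h1 ht.1
    nlinarith
  exact (pow_le_pow_iff_left₀ (mul_nonneg ht.1 (hnn y z)) (hnn y' z') two_ne_zero).1 h3

end Pool.Agent.Helper43.LH
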