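import Pool.Agent.Helper62.LH.StG

/-!
# Project LH (MP_087a81_gt): module SM (smoothing of a convex function)
-/

set_option autoImplicit false

open Set Filter Topology MeasureTheory
open scoped ContDiff ENNReal

noncomputable section

namespace Pool.Agent.Helper43.LH

open Helper62.LH

theorem hSm (hMet : StMet) (hDlc : StDlc) (hDel : StDel) (hSma : StSma) (hSmb : StSmb)
    (hSmc : StSmc) : StSm := by
  intro n g Γ hg hΓ b hlip hcvx e he hepos
  obtain ⟨⟨ρ, hρ⟩, hsmooth⟩ := hSma n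
  have hd0 : ∀ x, dg g x x = 0 := (hMet n g hg).2.2.2.1
  have hdc : Continuous (fun q : E n × E n => dg g q.1 q.2) := (hDlc n g hg).2.2
  have hbc : Continuous b := by
    rw [continuous_iff_continuousAt]
    intro x
    have h1 : Tendsto (fun y => dg g x y) (𝓝 x) (𝓝 0) := by
      have h2 : Continuous (fun y : E n => dg g x y) :=
        hdc.comp (by fun_prop : Continuous (fun y : E n => ((x, y) : E n × E n)))
      have h3 := h2.tendsto x
      rwa [hd0 x] at h3
    rw [ContinuousAt, tendsto_iff_dist_tendsto_zero]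
    refine squeeze_zero (fun _ => dist_nonneg) (fun y => ?_) h1
    rw [Real.dist_eq, abs_sub_comm]
    exact hlip x y
  have hmin : ∀ j : ℕ, ∃ ε : ℝ, 0 < ε ∧ ∀ x ∈ Metric.closedBall (0 : E n) (j + 1), ε ≤ e x := by
    intro j
    have hK : IsCompact (Metric.closedBall (0 : E n) ((j : ℝ) + 1)) := isCompact_closedBall _ _
    have hne : (Metric.closedBall (0 : E n) ((j : ℝ) + 1)).Nonempty :=
      ⟨0, Metric.mem_closedBall_self (by positivity)⟩
    obtain ⟨x₀, hx₀, hx₁⟩ := hK.exists_isMinOn hne he.continuousOn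
    exact ⟨e x₀, hepos x₀, fun x hx => hx₁ hx⟩
  choose ε hε0 hε using hmin
  have hB := fun j : ℕ => hSmb n g hg ρ hρ b hlip (Metric.closedBall (0 : E n) ((j : ℝ) + 1))
    (isCompact_closedBall _ _)
  choose η₁ hη₁ hB1 using hB
  have hC := fun j : ℕ => hSmc n g Γ hg hΓ ρ hρ b hlip hcvx
    (Metric.closedBall (0 : E n) ((j : ℝ) + 1)) (isCompact_closedBall _ _) (ε j) (hε0 j)
  choose η₂ hη₂ hC1 using hC
  obtain ⟨δ, hδs, hδ⟩ := hDel n (fun j => min (η₁ j) (η₂ j)) (fun j => lt_min (hη₁ j) (hη₂ j))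
  have hδpos : ∀ x, 0 < δ x := fun x => (hδ x).1
  refine ⟨sm ρ b δ, hsmooth ρ hρ b δ hbc hδs hδpos, ?_⟩
  intro x
  obtain ⟨_, h2, h3, h4⟩ := hδ x
  set j := ⌊‖x‖⌋₊ with hj
  have hxK : x ∈ Metric.closedBall (0 : E n) ((j : ℝ) + 1) := by
    rw [mem_closedBall_zero_iff]
    exact (Nat.lt_floor_add_one ‖x‖).le
  have h5 := hB1 j δ hδs hδpos x hxK (h2.trans (min_le_left _ _)) (h3.trans (min_le_left _ _))
  have h6 := hC1 j δ hδs hδpos x hxK (h2.trans (min_le_right _ _)) (h3.trans (min_le_right _ _))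
    (h4.trans (min_le_right _ _))
  refine ⟨h5.1, h5.2, fun v => le_trans ?_ (h6 v)⟩
  have hgv : 0 ≤ g x v v := by
    by_cases hv : v = 0
    · subst hv
      simp
    · exact (hg.pos x v hv).le
  have := mul_le_mul_of_nonneg_right (hε j x hxK) hgv
  linarith

end Pool.Agent.Helper43.LH
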